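import Pool.Agent.LPC.Stmts

set_option autoImplicit false

/-!
# Squad LPC, row ASM: the bound from a certificate
-/

noncomputable section

open MeasureTheory Filter Topology
open scoped RealInnerProductSpace

namespace Pool.Agent.LPC.H23

open Pool.Agent.LPC

theorem list_bound {ι : Type} (T : Finset ι) (K : ℝ) (h : ℝ → ι → ℝ) :
    ∀ l : List (ℝ × ℝ), (∀ a ∈ l, 0 ≤ a.2) → (∀ a ∈ l, ∑ v ∈ T, h a.1 v ≤ K) →
      ∑ v ∈ T, (l.map fun a => a.2 * h a.1 v).sum ≤ K * (l.map fun a => a.2).sum := by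
  intro l
  induction l with
  | nil => intro _ _; simp
  | cons a l ih =>
    intro h1 h2
    have h3 := ih (fun b hb => h1 b (List.mem_cons_of_mem _ hb))
      (fun b hb => h2 b (List.mem_cons_of_mem _ hb))
    simp only [List.map_cons, List.sum_cons]
    rw [Finset.sum_add_distrib, ← Finset.mul_sum, mul_add]
    have h4 := mul_le_mul_of_nonneg_left (h2 a List.mem_cons_self) (h1 a List.mem_cons_self)
    have h5 : a.2 * K = K * a.2 := mul_comm _ _
    linarith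

theorem half_pow {a : ℝ} (ha : 0 ≤ a) (n : ℕ) : a ^ ((n : ℝ) / 2) = √a ^ n := by
  rw [Real.rpow_div_two_eq_sqrt _ ha, Real.rpow_natCast]

theorem vb_one (n : ℕ) (hn : 1 ≤ n) : vb n 1 = √Real.pi ^ n / Real.Gamma ((n : ℝ) / 2 + 1) := by
  haveI : Nonempty (Fin n) := ⟨⟨0, hn⟩⟩
  unfold vb
  rw [EuclideanSpace.volume_ball]
  simp only [Fintype.card_fin, ENNReal.ofReal_one, one_pow, one_mul]
  rw [ENNReal.toReal_ofReal]
  have h1 : 0 < Real.Gamma ((n : ℝ) / 2 + 1) := Real.Gamma_pos_of_pos (by positivity)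
  positivity

theorem asm (hFTR : FtrStmt) (hPDF : PdfStmt) (hASY : AsyStmt) (hCLS : ClsStmt) (hSCA : ScaStmt)
    (hDEN : DenStmt) : AsmStmt := by
  classical
  intro n s q y C L hL
  have hn2 := C.dim
  have hn1 : 1 ≤ n := by omega
  have hs := C.pos
  have h2pi : (0 : ℝ) < 2 * Real.pi := by positivity
  obtain ⟨P, hP⟩ : ∃ P : ℝ, P = (2 * Real.pi) ^ ((n : ℝ) / 2) := ⟨_, rfl⟩
  have Ppos : 0 < P := by rw [hP]; exact Real.rpow_pos_of_pos h2pi _
  obtain ⟨f, hf⟩ : ∃ f : V n → ℝ, f = fun x => ev (tr n q) (‖x‖ ^ 2) * Real.exp (-‖x‖ ^ 2 / 2) :=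
    ⟨_, rfl⟩
  obtain ⟨B, hB⟩ : ∃ B : ℝ, B = ev (tr n (tr n q)) 0 := ⟨_, rfl⟩
  obtain ⟨A, hA⟩ : ∃ A : ℝ, A = ev (tr n q) 0 + 2 * (2 ^ n - 1) * (y.map fun a => a.2).sum :=
    ⟨_, rfl⟩
  have Bpos : 0 < B := by rw [hB]; exact C.q0
  have hy0 : 0 ≤ (y.map fun a => a.2).sum := by
    refine List.sum_nonneg ?_
    intro x hx
    rw [List.mem_map] at hx
    obtain ⟨a, ha, rfl⟩ := hx
    exact (C.tau a ha).2.2
  have h2n : (0 : ℝ) ≤ 2 * (2 ^ n - 1) := by
    have : (1 : ℝ) ≤ 2 ^ n := one_le_pow₀ (by norm_num)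
    linarith
  have A0 : 0 ≤ A := by
    rw [hA]
    exact add_nonneg C.p0 (mul_nonneg h2n hy0)
  -- positivity of the form
  have hQF : QF f := by
    have h1 := hPDF n (fun w => P⁻¹ * (ev q (‖w‖ ^ 2) * Real.exp (-‖w‖ ^ 2 / 2)))
      ((hFTR n q 0).1.const_mul _) (fun w => by
        have h2 := C.qpos (‖w‖ ^ 2) (sq_nonneg _)
        positivity)
    have h3 : (fun x : V n => ∫ w : V n, P⁻¹ * (ev q (‖w‖ ^ 2) * Real.exp (-‖w‖ ^ 2 / 2)) *
        Real.cos ⟪x, w⟫) = f := by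
      funext x
      have h4 := (hFTR n q x).2
      rw [← hP] at h4
      have h5 : (fun w : V n => P⁻¹ * (ev q (‖w‖ ^ 2) * Real.exp (-‖w‖ ^ 2 / 2)) *
          Real.cos ⟪x, w⟫) = fun w : V n => P⁻¹ * (ev q (‖w‖ ^ 2) * Real.exp (-‖w‖ ^ 2 / 2) *
          Real.cos ⟪x, w⟫) := by
        funext w
        ring
      rw [h5, integral_const_mul, h4, hf, ← mul_assoc, inv_mul_cancel₀ Ppos.ne', one_mul]
    rw [h3] at h1
    exact h1
  have hint : Integrable f := by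
    rw [hf]
    exact (hFTR n (tr n q) 0).1
  have hI : ∫ x, f x = P * B := by
    have h4 := (hFTR n (tr n q) 0).2
    rw [← hP] at h4
    have h5 : (fun w : V n => ev (tr n q) (‖w‖ ^ 2) * Real.exp (-‖w‖ ^ 2 / 2) *
          Real.cos ⟪(0 : V n), w⟫) = f := by
      funext w
      rw [inner_zero_left, Real.cos_zero, mul_one, hf]
    rw [h5] at h4
    rw [h4, norm_zero, hB]
    norm_num
  -- the scaled lattice
  obtain ⟨t, ht⟩ : ∃ t : ℝ, t = √(s / 4) := ⟨_, rfl⟩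
  have tpos : 0 < t := by rw [ht]; exact Real.sqrt_pos.2 (by positivity)
  have t2 : t ^ 2 = s / 4 := by rw [ht]; exact Real.sq_sqrt (by positivity)
  obtain ⟨M, hM⟩ : ∃ M : AddSubgroup (V n), ∀ v : V n, v ∈ M ↔ t⁻¹ • v ∈ L :=
    ⟨L.comap (DistribMulAction.toAddMonoidHom (V n) t⁻¹), fun v => Iff.rfl⟩
  have hL2 : ∀ w ∈ L, w ≠ 0 → 2 ≤ ‖w‖ := by
    intro w hw h0
    have h1 : 2 ≤ dist w 0 := hL hw L.zero_mem h0
    rw [dist_zero_right] at h1
    exact h1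
  have mL : Mn 4 L := by
    intro w hw h0
    have h1 := hL2 w hw h0
    nlinarith
  have mM : Mn s M := by
    intro v hv h0
    have h1 := hL2 _ ((hM v).1 hv) (smul_ne_zero (inv_ne_zero tpos.ne') h0)
    rw [norm_smul, norm_inv, Real.norm_of_nonneg tpos.le, ← div_eq_inv_mul, le_div_iff₀ tpos] at h1
    have h2 : (2 * t) ^ 2 ≤ ‖v‖ ^ 2 := pow_le_pow_left₀ (by positivity) h1 2
    rw [mul_pow, t2] at h2
    linarith
  -- the sums
  have hsum : ∀ X : Finset (V n), (∀ x ∈ X, x ∈ M) → ∀ x ∈ X, ∑ z ∈ X, f (x - z) ≤ A := by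
    intro X hX x hx
    rw [← Finset.add_sum_erase X _ hx, sub_self, hA]
    have h1 : f 0 = ev (tr n q) 0 := by
      rw [hf]
      simp
    rw [h1]
    refine add_le_add le_rfl ?_
    have hinj : Set.InjOn (fun z : V n => x - z) (X.erase x : Finset (V n)) :=
      fun a _ b _ hab => sub_right_injective hab
    obtain ⟨T, hT⟩ : ∃ T : Finset (V n), T = (X.erase x).image (fun z => x - z) := ⟨_, rfl⟩
    have h2 : ∑ z ∈ X.erase x, f (x - z) = ∑ v ∈ T, f v := by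
      rw [hT, Finset.sum_image hinj]
    have hTM : ∀ v ∈ T, v ∈ M ∧ v ≠ 0 := by
      intro v hv
      rw [hT, Finset.mem_image] at hv
      obtain ⟨z, hz, rfl⟩ := hv
      rw [Finset.mem_erase] at hz
      exact ⟨M.sub_mem (hX x hx) (hX z hz.2), sub_ne_zero.2 (Ne.symm hz.1)⟩
    rw [h2]
    calc ∑ v ∈ T, f v ≤ ∑ v ∈ T, (y.map fun a => a.2 * wt n s a.1 (‖v‖ ^ 2)).sum := by
          refine Finset.sum_le_sum fun v hv => ?_
          obtain ⟨h3, h4⟩ := hTM v hv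
          have h5 := C.le (‖v‖ ^ 2) (mM v h3 h4)
          rw [hf]
          exact h5
      _ ≤ 2 * (2 ^ n - 1) * (y.map fun a => a.2).sum := by
          refine list_bound T (2 * (2 ^ n - 1)) (fun a v => wt n s a (‖v‖ ^ 2)) y
            (fun a ha => (C.tau a ha).2.2) fun a ha => ?_
          exact hCLS n s a.1 M hn2 hs mM (C.tau a ha).1 (C.tau a ha).2.1 T hTM
  have hIpos : 0 < ∫ x, f x := by
    rw [hI]
    exact mul_pos Ppos Bpos
  have d1 := hASY n f A s M hn1 hs mM hint hQF hIpos A0 hsum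
  have d2 := hSCA n t _ L M hn1 tpos hM d1
  rw [hI] at d2
  have k0 : 0 ≤ t ^ n * (A / (P * B)) := by positivity
  have d3 := hDEN n _ L hn1 k0 mL d2
  have hG : 0 < Real.Gamma ((n : ℝ) / 2 + 1) := Real.Gamma_pos_of_pos (by positivity)
  have key : t ^ n * √Real.pi ^ n = √(s / 8) ^ n * √(2 * Real.pi) ^ n := by
    rw [ht, ← mul_pow, ← mul_pow, ← Real.sqrt_mul (by positivity), ← Real.sqrt_mul (by positivity)]
    congr 2
    ring
  have hS : 0 < √(2 * Real.pi) ^ n := pow_pos (Real.sqrt_pos.2 h2pi) n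
  have e1 : t ^ n * (A / (P * B)) * vb n 1 =
      (s / 8) ^ ((n : ℝ) / 2) / Real.Gamma ((n : ℝ) / 2 + 1) * (A / B) := by
    rw [vb_one n hn1, hP, half_pow h2pi.le, half_pow (by positivity : 0 ≤ s / 8)]
    have e2 : t ^ n * (A / (√(2 * Real.pi) ^ n * B)) *
        (√Real.pi ^ n / Real.Gamma ((n : ℝ) / 2 + 1)) =
        (t ^ n * √Real.pi ^ n) * A / (√(2 * Real.pi) ^ n * B * Real.Gamma ((n : ℝ) / 2 + 1)) := by
      field_simp
    rw [e2, key]
    field_simp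
  rw [e1] at d3
  rw [← hA, ← hB]
  exact d3

end Pool.Agent.LPC.H23
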